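import Pool.Agent.Lib.MP_688fd0_co.OSF.H38.Ord3
import Pool.Agent.Lib.MP_ba0fa5_ag.AA.H15.Recg
import Pool.Agent.Lib.MP_ba0fa5_ag.AA.H15.Vbnd
import Pool.Agent.Lib.MP_ba0fa5_ag.AA.H30.FLU
import Pool.Agent.Lib.MP_ba0fa5_ag.AA.H30.SELB
import Pool.Agent.Lib.MP_ba0fa5_ag.AA.H38.Mertap
import Pool.Agent.Lib.MP_ba0fa5_ag.AA.H47.Btsum
import Pool.Agent.Lib.MP_ba0fa5_ag.AA.H54.Bt
import Pool.Agent.Lib.MP_ba0fa5_ag.AA.H54.Rankb

/-!
MP_688fd0_co, odd squarefree orders: the module ORDERS, unconditional.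
-/

set_option autoImplicit false

namespace Pool.Agent.Lib.MP_688fd0_co.OSF.H38

open Finset
open Pool.Agent.Lib.MP_ba0fa5_ag.AA

lemma mertap : MertapStmt := Pool.Agent.Lib.MP_ba0fa5_ag.AA.H38.mertap
  Pool.Agent.Lib.MP_ba0fa5_ag.H72.nmert1

lemma recg : RecgStmt := H15.recg

lemma btsum : BtsumStmt := H47.btsum (H54.bt (H30.flu H30.selb
  (H54.rankb Pool.Agent.Lib.MP_ba0fa5_ag.H72.nmert1) (H15.vbnd recg)) (H15.vbnd recg))

open scoped Classical in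
/-- For almost all odd squarefree `n` some prime factor `P` of `n` is at least
`(2 ^ ω(n) * KK n) ^ c`, and no prime factor `q` of `n` has `q ∣ P - 1` or `P ∣ q - 1`. -/
theorem orders (c : ℕ) (ε : ℝ) (hε : 0 < ε) : ∃ x₀ : ℕ, ∀ x : ℕ, x₀ ≤ x →
    (((Icc 1 x).filter (fun n => Odd n ∧ Squarefree n ∧ ¬ Fine c n)).card : ℝ) ≤ ε * x :=
  orders_of mertap recg btsum c ε hε

open scoped Classical in
/-- The same for almost all odd `n`. -/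
theorem orders2 (c : ℕ) (ε : ℝ) (hε : 0 < ε) : ∃ x₀ : ℕ, ∀ x : ℕ, x₀ ≤ x →
    (((Icc 1 x).filter (fun n => Odd n ∧ ¬ Fine c n)).card : ℝ) ≤ ε * x :=
  orders2_of mertap recg btsum c ε hε

end Pool.Agent.Lib.MP_688fd0_co.OSF.H38
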