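import Pool.Agent.Lib.MP_688fd0_co.OSF.H38.Ord2

/-!
MP_688fd0_co, odd squarefree orders: almost all odd squarefree numbers have a large prime factor
that is central in every group of that order.
-/

set_option autoImplicit false

namespace Pool.Agent.Lib.MP_688fd0_co.OSF.H38

open Finset Filter
open Pool.Agent.Lib.MP_ba0fa5_ag.AA (primesIn MertapStmt RecgStmt BtsumStmt)

/-- the product of the prime factors `q` of `n` that divide `p - 1` for a prime factor `p` -/
def KK (n : ℕ) : ℕ := ∏ q ∈ n.primeFactors.filter (fun q => ∃ p ∈ n.primeFactors, q ∣ p - 1), q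

/-- `n` has a prime factor `P`, large compared with `2 ^ ω(n)` and `KK n`, such that no group of
order `n` acts nontrivially on a group of order `P` or through a group of order `P` -/
def Fine (c n : ℕ) : Prop := ∃ P ∈ n.primeFactors,
  (∀ q ∈ n.primeFactors, ¬ q ∣ P - 1 ∧ ¬ P ∣ q - 1) ∧ (2 ^ n.primeFactors.card * KK n) ^ c ≤ P

lemma ev_pow (k : ℕ) : ∃ x₀ : ℕ, ∀ x : ℕ, x₀ ≤ x → ell x ^ k ≤ x := by
  have h := tendsto_pow_const_div_const_pow_of_one_lt k (by norm_num : (1 : ℝ) < 2)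
  have h2 : ∀ᶠ n : ℕ in atTop, (n : ℝ) ^ k / 2 ^ n ≤ 1 / 4 :=
    (h.eventually (gt_mem_nhds (by norm_num : (0 : ℝ) < 1 / 4))).mono fun n hn => hn.le
  obtain ⟨N, hN⟩ := eventually_atTop.mp h2
  refine ⟨2 ^ N, fun x hx => ?_⟩
  have hx0 : x ≠ 0 := by
    have : 0 < 2 ^ N := by positivity
    omega
  have h3 : N ≤ Nat.log 2 x := Nat.le_log_of_pow_le (by norm_num) hx
  have h4 := hN (Nat.log 2 x + 2) (by omega)
  rw [div_le_iff₀ (by positivity)] at h4
  have h5 : (2 : ℝ) ^ Nat.log 2 x ≤ x := by exact_mod_cast Nat.pow_log_le_self 2 hx0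
  have h6 : ((ell x ^ k : ℕ) : ℝ) ≤ x := by
    unfold ell
    calc (((Nat.log 2 x + 2) ^ k : ℕ) : ℝ) = ((Nat.log 2 x + 2 : ℕ) : ℝ) ^ k := by push_cast; ring
      _ ≤ 1 / 4 * 2 ^ (Nat.log 2 x + 2) := h4
      _ = 2 ^ Nat.log 2 x := by rw [pow_add]; ring
      _ ≤ x := h5
  exact_mod_cast h6

lemma ev_ell (L : ℕ) : ∃ x₀ : ℕ, ∀ x : ℕ, x₀ ≤ x → L ≤ ell x := by
  refine ⟨2 ^ L, fun x hx => ?_⟩
  have h3 : L ≤ Nat.log 2 x := Nat.le_log_of_pow_le (by norm_num) hx
  unfold ell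
  omega

open scoped Classical in
theorem orders2_of (hM : MertapStmt) (hR : RecgStmt) (hB : BtsumStmt) (c : ℕ) (ε : ℝ)
    (hε : 0 < ε) : ∃ x₀ : ℕ, ∀ x : ℕ, x₀ ≤ x →
      (((Icc 1 x).filter (fun n => Odd n ∧ ¬ Fine c n)).card : ℝ) ≤ ε * x := by
  classical
  obtain ⟨C, hC0, hC⟩ := upq hB
  obtain ⟨C', hC'0, hC'⟩ := mert hM
  set δ : ℝ := ε / 5 with hδ
  have hδ0 : 0 < δ := by positivity
  obtain ⟨T₀, hT₀⟩ := exists_nat_ge (3 / δ)
  obtain ⟨z₀, hz₀⟩ := exists_nat_ge (4 * C / δ)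
  set T : ℕ := T₀ + 1 with hT
  set z : ℕ := z₀ + 2 with hz
  set M : ℕ := ∏ p ∈ (Icc 3 z).filter Nat.Prime, p with hMdef
  have hM1 : 1 ≤ M := Finset.one_le_prod' fun p hp => (mem_filter.mp hp).2.pos
  have hφ : (0 : ℝ) < M.totient := by exact_mod_cast Nat.totient_pos.mpr hM1
  obtain ⟨J₀, hJ₀⟩ := exists_nat_ge (24 * M.totient / δ)
  set J : ℕ := J₀ + 1 with hJ
  obtain ⟨W₀, hW₀⟩ := low hM hR M hM1 J (by omega)
  set B : ℕ := (2 + T) * c + 5 with hBdef
  obtain ⟨ℓ₀, hℓ₀⟩ := exists_nat_ge (max (1 / δ) (Real.exp C'))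
  obtain ⟨x₁, hx₁⟩ := ev_ell (max (max 3 (M ^ 2)) (max W₀ ℓ₀))
  obtain ⟨x₂, hx₂⟩ := ev_pow (B * 2 ^ J)
  refine ⟨max (max x₁ x₂) 1, fun x hx => ?_⟩
  have hxa : x₁ ≤ x := ((le_max_left _ _).trans (le_max_left _ _)).trans hx
  have hxb : x₂ ≤ x := ((le_max_right _ _).trans (le_max_left _ _)).trans hx
  have hx1 : 1 ≤ x := (le_max_right _ _).trans hx
  have hx0 : (0 : ℝ) < x := by exact_mod_cast hx1
  set ℓ : ℕ := ell x with hℓ
  have hall := hx₁ x hxa
  have hℓ3 : 3 ≤ ℓ := ((le_max_left _ _).trans (le_max_left _ _)).trans hall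
  have hℓM : M ^ 2 ≤ ℓ := ((le_max_right _ _).trans (le_max_left _ _)).trans hall
  have hℓW : W₀ ≤ ℓ := ((le_max_left _ _).trans (le_max_right _ _)).trans hall
  have hℓℓ : ℓ₀ ≤ ℓ := ((le_max_right _ _).trans (le_max_right _ _)).trans hall
  have hℓr0 : (0 : ℝ) < ℓ := by exact_mod_cast (by omega : 0 < ℓ)
  have hℓδ : 1 / δ ≤ ℓ := ((le_max_left _ _).trans hℓ₀).trans (by exact_mod_cast hℓℓ)
  have hℓC : Real.exp C' ≤ ℓ := ((le_max_right _ _).trans hℓ₀).trans (by exact_mod_cast hℓℓ)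
  have hlogC : C' ≤ Real.log ℓ := by rwa [Real.le_log_iff_exp_le hℓr0]
  have hlog0 : 0 < Real.log ℓ := Real.log_pos (by exact_mod_cast (by omega : 1 < ℓ))
  have hinv : 1 / (ℓ : ℝ) ≤ δ := by
    rw [div_le_iff₀ hℓr0]
    rw [div_le_iff₀ hδ0] at hℓδ
    linarith
  set Y : ℕ := ℓ ^ 2 with hY
  set W : ℕ := ℓ ^ B with hW
  have hY1 : 1 ≤ Y := Nat.one_le_pow _ _ (by omega)
  have hYW : Y ≤ W := Nat.pow_le_pow_right (by omega) (by omega)
  have hWℓ : ℓ ≤ W := Nat.le_self_pow (by omega) ℓ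
  have hW3 : 3 ≤ W := hℓ3.trans hWℓ
  have hYM : (Y * M) ^ 2 ≤ W := by
    calc (Y * M) ^ 2 = ℓ ^ 4 * M ^ 2 := by rw [hY]; ring
      _ ≤ ℓ ^ 4 * ℓ := Nat.mul_le_mul_left _ hℓM
      _ = ℓ ^ 5 := by ring
      _ ≤ ℓ ^ B := Nat.pow_le_pow_right (by omega) (by omega)
  have hWx : W ^ 2 ^ J ≤ x := by
    rw [hW, ← pow_mul]
    exact hx₂ x hxb
  set S := (primesIn W (W ^ 2 ^ J)).filter (fun p => p ≡ M - 1 [MOD M]) with hS
  have hSp : ∀ p ∈ S, p.Prime := fun p hp => (mem_primesIn.mp (mem_filter.mp hp).1).2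
  have hScard : S.card ≤ x := by
    have h1 : S ⊆ Ioc 0 x := by
      intro p hp
      have h2 := mem_primesIn.mp (mem_filter.mp hp).1
      rw [mem_Ioc]
      exact ⟨h2.2.pos, h2.1.2.trans hWx⟩
    simpa using Finset.card_le_card h1
  have hJr : (0 : ℝ) < J := by exact_mod_cast (by omega : 0 < J)
  set μ : ℝ := (J : ℝ) / (2 * M.totient) with hμ
  have hμ0 : 0 < μ := by positivity
  have hlow : μ ≤ ∑ p ∈ S, (1 : ℝ) / p := hW₀ W (hℓW.trans hWℓ)
  -- the exceptional sets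
  set E1 := (Ioc 0 x).filter fun n => ∃ q ∈ n.primeFactors, ∃ p ∈ n.primeFactors,
      Y < q ∧ q ∣ p - 1 with hE1
  set E2 := (Ioc 0 x).filter fun n => Y ≤ 2 ^ n.primeFactors.card with hE2
  set E3 := (Ioc 0 x).filter fun n => T * Real.log ℓ ≤
      ∑ q ∈ (primesIn 0 Y).filter (fun q => q ∣ n), Real.log q with hE3
  set E4 := (Ioc 0 x).filter fun n => ((S.filter (fun p => p ∣ n)).card : ℝ) ≤ μ / 2 with hE4
  set E5 := (Ioc 0 x).filter fun n => μ / 2 ≤
      (((S.filter (fun p => p ∣ n)).filter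
        (fun p => ∃ q ∈ primesIn z Y, q ∣ n ∧ q ∣ p - 1)).card : ℝ) with hE5
  have hYr : (Y : ℝ) = (ℓ : ℝ) ^ 2 := by rw [hY]; push_cast; ring
  have c1 : (E1.card : ℝ) ≤ δ * x := by
    refine (bad1 x Y (by omega)).trans ?_
    rw [hYr, ← hℓ]
    have : (x : ℝ) * ℓ / (ℓ : ℝ) ^ 2 = (1 / ℓ) * x := by field_simp
    rw [this]
    exact mul_le_mul_of_nonneg_right hinv hx0.le
  have c2 : (E2.card : ℝ) ≤ δ * x := by
    refine (bad2 x Y (by omega)).trans ?_
    rw [hYr, ← hℓ]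
    have : (x : ℝ) * ℓ / (ℓ : ℝ) ^ 2 = (1 / ℓ) * x := by field_simp
    rw [this]
    exact mul_le_mul_of_nonneg_right hinv hx0.le
  have hTr : (0 : ℝ) < T := by exact_mod_cast (by omega : 0 < T)
  have c3 : (E3.card : ℝ) ≤ δ * x := by
    refine (bad3 x (primesIn 0 Y) (T * Real.log ℓ) (by positivity)).trans ?_
    have h1 := hC' Y hY1
    have h2 : Real.log (Y : ℝ) = 2 * Real.log ℓ := by
      rw [hYr, Real.log_pow]; norm_num
    rw [h2] at h1
    have h3 : ∑ q ∈ primesIn 0 Y, Real.log q / q ≤ 3 * Real.log ℓ := by linarith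
    have h4 : 3 ≤ δ * T := by
      rw [div_le_iff₀ hδ0] at hT₀
      have : (T : ℝ) = T₀ + 1 := by rw [hT]; push_cast; ring
      rw [this]
      nlinarith
    rw [div_le_iff₀ (by positivity)]
    calc x * (∑ q ∈ primesIn 0 Y, Real.log q / q) ≤ x * (3 * Real.log ℓ) :=
          mul_le_mul_of_nonneg_left h3 hx0.le
      _ ≤ x * (δ * T * Real.log ℓ) := by
          refine mul_le_mul_of_nonneg_left ?_ hx0.le
          exact mul_le_mul_of_nonneg_right h4 hlog0.le
      _ = δ * x * (T * Real.log ℓ) := by ring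
  have c4 : (E4.card : ℝ) ≤ δ * x := by
    refine (bad4 x S hSp hScard μ hμ0 hlow).trans ?_
    have h1 : 24 * (M.totient : ℝ) ≤ δ * J := by
      rw [div_le_iff₀ hδ0] at hJ₀
      have : (J : ℝ) = J₀ + 1 := by rw [hJ]; push_cast; ring
      rw [this]
      nlinarith
    rw [div_le_iff₀ hμ0, hμ]
    have h2 : δ * x * ((J : ℝ) / (2 * M.totient)) = (δ * J) * (x / (2 * M.totient)) := by ring
    rw [h2]
    have h3 : 12 * (x : ℝ) = (24 * M.totient) * (x / (2 * M.totient)) := by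
      field_simp
      norm_num
    rw [h3]
    exact mul_le_mul_of_nonneg_right h1 (by positivity)
  have c5 : (E5.card : ℝ) ≤ δ * x := by
    have hMz : ∀ l : ℕ, l.Prime → l ∣ M → l ≤ z := by
      intro l hl hlM
      rw [hMdef, Prime.dvd_finsetProd_iff hl.prime] at hlM
      obtain ⟨p, hp, hlp⟩ := hlM
      rw [mem_filter, mem_Icc] at hp
      have := (Nat.prime_dvd_prime_iff_eq hl hp.2).mp hlp
      omega
    have h1 := hC M z Y W J hM1 (by omega) hW3 hMz hYM
    refine (bad5 x S (primesIn z Y) hSp (fun q hq => (mem_primesIn.mp hq).2)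
      (C * J / (M.totient * z)) (μ / 2) (by positivity) h1).trans ?_
    have hzr : (0 : ℝ) < z := by exact_mod_cast (by omega : 0 < z)
    have h2 : 4 * C ≤ δ * z := by
      rw [div_le_iff₀ hδ0] at hz₀
      have : (z : ℝ) = z₀ + 2 := by rw [hz]; push_cast; ring
      rw [this]
      nlinarith
    have h3 : x * (C * J / (M.totient * z)) / (μ / 2) = x * (4 * C / z) := by
      rw [hμ]
      field_simp
      norm_num
    rw [h3, mul_comm δ]
    refine mul_le_mul_of_nonneg_left ?_ hx0.le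
    rw [div_le_iff₀ hzr]
    exact h2
  -- inclusion
  have hsub : (Icc 1 x).filter (fun n => Odd n ∧ ¬ Fine c n) ⊆
      E1 ∪ (E2 ∪ (E3 ∪ (E4 ∪ E5))) := by
    intro n hn
    rw [mem_filter, mem_Icc] at hn
    obtain ⟨⟨hn1, hnx⟩, hodd, hnf⟩ := hn
    have hnI : n ∈ Ioc 0 x := by rw [mem_Ioc]; omega
    by_contra hcon
    rw [mem_union, mem_union, mem_union, mem_union] at hcon
    push Not at hcon
    obtain ⟨n1, n2, n3, n4, n5⟩ := hcon
    rw [hE1, mem_filter] at n1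
    rw [hE2, mem_filter] at n2
    rw [hE3, mem_filter] at n3
    rw [hE4, mem_filter] at n4
    rw [hE5, mem_filter] at n5
    have m1 : ∀ q ∈ n.primeFactors, ∀ p ∈ n.primeFactors, q ∣ p - 1 → q ≤ Y := by
      intro q hq p hp h
      by_contra h'
      exact n1 ⟨hnI, q, hq, p, hp, by omega, h⟩
    have m2 : 2 ^ n.primeFactors.card < Y := by
      by_contra h'
      exact n2 ⟨hnI, by omega⟩
    have m3 : ∑ q ∈ (primesIn 0 Y).filter (fun q => q ∣ n), Real.log q < T * Real.log ℓ := by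
      by_contra h'
      exact n3 ⟨hnI, by linarith⟩
    have m4 : μ / 2 < ((S.filter (fun p => p ∣ n)).card : ℝ) := by
      by_contra h'
      exact n4 ⟨hnI, by linarith⟩
    have m5 : (((S.filter (fun p => p ∣ n)).filter
        (fun p => ∃ q ∈ primesIn z Y, q ∣ n ∧ q ∣ p - 1)).card : ℝ) < μ / 2 := by
      by_contra h'
      exact n5 ⟨hnI, by linarith⟩
    -- the prime P
    have hex : ∃ P ∈ S.filter (fun p => p ∣ n),
        ¬ ∃ q ∈ primesIn z Y, q ∣ n ∧ q ∣ P - 1 := by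
      by_contra h
      push Not at h
      have : (S.filter (fun p => p ∣ n)).filter
        (fun p => ∃ q ∈ primesIn z Y, q ∣ n ∧ q ∣ p - 1) = S.filter (fun p => p ∣ n) := by
        rw [Finset.filter_eq_self]
        exact h
      rw [this] at m5
      linarith
    obtain ⟨P, hP, hPq⟩ := hex
    rw [mem_filter] at hP
    obtain ⟨hPS, hPn⟩ := hP
    have hPp := hSp P hPS
    have hPS' := hPS
    rw [hS, mem_filter, mem_primesIn] at hPS'
    obtain ⟨⟨⟨hWP, _⟩, _⟩, hPM⟩ := hPS'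
    have hPf : P ∈ n.primeFactors := Nat.mem_primeFactors.mpr ⟨hPp, hPn, by omega⟩
    refine hnf ⟨P, hPf, fun q hq => ⟨fun h => ?_, fun h => ?_⟩, ?_⟩
    · have hqp := Nat.prime_of_mem_primeFactors hq
      have hqn := Nat.dvd_of_mem_primeFactors hq
      have hqY := m1 q hq P hPf h
      rcases Nat.lt_or_ge z q with h1 | h1
      · exact hPq ⟨q, mem_primesIn.mpr ⟨⟨h1, hqY⟩, hqp⟩, hqn, h⟩
      · have hq2 : q ≠ 2 := by
          rintro rfl
          have := Nat.odd_iff.mp hodd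
          omega
        have hq3 : 3 ≤ q := by
          have := hqp.two_le
          omega
        have hqM : q ∣ M := Finset.dvd_prod_of_mem (fun p => p)
          (mem_filter.mpr ⟨mem_Icc.mpr ⟨hq3, h1⟩, hqp⟩)
        have h2 : P ≡ M - 1 [MOD q] := hPM.of_dvd hqM
        have h3 : P + 1 ≡ M - 1 + 1 [MOD q] := h2.add_right 1
        have h4 : M - 1 + 1 = M := by omega
        rw [h4] at h3
        have h5 : q ∣ P + 1 := (Nat.modEq_zero_iff_dvd).mp
          (h3.trans ((Nat.modEq_zero_iff_dvd).mpr hqM))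
        have h6 : q ∣ (P + 1) - (P - 1) := Nat.dvd_sub h5 h
        have h7 : (P + 1) - (P - 1) = 2 := by
          have := hPp.two_le
          omega
        rw [h7] at h6
        have := Nat.le_of_dvd (by norm_num) h6
        omega
    · have := m1 P hPf q hq h
      omega
    · -- size
      have hsubK : n.primeFactors.filter (fun q => ∃ p ∈ n.primeFactors, q ∣ p - 1) ⊆
          (primesIn 0 Y).filter (fun q => q ∣ n) := by
        intro q hq
        rw [mem_filter] at hq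
        obtain ⟨hq1, p, hp, hd⟩ := hq
        have hqp := Nat.prime_of_mem_primeFactors hq1
        rw [mem_filter, mem_primesIn]
        exact ⟨⟨⟨hqp.pos, m1 q hq1 p hp hd⟩, hqp⟩, Nat.dvd_of_mem_primeFactors hq1⟩
      have hKpos : ∀ q ∈ n.primeFactors.filter (fun q => ∃ p ∈ n.primeFactors, q ∣ p - 1),
          (q : ℝ) ≠ 0 := by
        intro q hq
        rw [mem_filter] at hq
        exact_mod_cast (Nat.prime_of_mem_primeFactors hq.1).ne_zero
      have hKlog : Real.log (KK n : ℝ) < T * Real.log ℓ := by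
        unfold KK
        push_cast
        rw [Real.log_prod hKpos]
        refine lt_of_le_of_lt ?_ m3
        exact Finset.sum_le_sum_of_subset_of_nonneg hsubK fun q _ _ => Real.log_natCast_nonneg q
      have hKK0 : 0 < KK n := by
        unfold KK
        exact Finset.prod_pos fun q hq => (Nat.prime_of_mem_primeFactors (mem_filter.mp hq).1).pos
      have hKle : KK n ≤ ℓ ^ T := by
        have h1 : (KK n : ℝ) < (ℓ : ℝ) ^ T := by
          rw [← Real.log_lt_log_iff (by exact_mod_cast hKK0) (by positivity), Real.log_pow]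
          exact hKlog
        have h2 : KK n < ℓ ^ T := by exact_mod_cast h1
        exact h2.le
      calc (2 ^ n.primeFactors.card * KK n) ^ c ≤ (ℓ ^ 2 * ℓ ^ T) ^ c :=
            Nat.pow_le_pow_left (Nat.mul_le_mul m2.le hKle) c
        _ = ℓ ^ ((2 + T) * c) := by rw [← pow_add, ← pow_mul]
        _ ≤ ℓ ^ B := Nat.pow_le_pow_right (by omega) (by omega)
        _ ≤ P := hWP.le
  have hcard := Finset.card_le_card hsub
  have hcard2 : (E1 ∪ (E2 ∪ (E3 ∪ (E4 ∪ E5)))).card ≤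
      E1.card + (E2.card + (E3.card + (E4.card + E5.card))) := by
    refine (Finset.card_union_le _ _).trans (Nat.add_le_add_left ?_ _)
    refine (Finset.card_union_le _ _).trans (Nat.add_le_add_left ?_ _)
    refine (Finset.card_union_le _ _).trans (Nat.add_le_add_left ?_ _)
    exact Finset.card_union_le _ _
  have hfin : (((Icc 1 x).filter (fun n => Odd n ∧ ¬ Fine c n)).card : ℝ) ≤
      E1.card + (E2.card + (E3.card + (E4.card + (E5.card : ℝ)))) := by
    exact_mod_cast hcard.trans hcard2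
  have hεδ : ε = 5 * δ := by rw [hδ]; ring
  rw [hεδ]
  linarith

open scoped Classical in
theorem orders_of (hM : MertapStmt) (hR : RecgStmt) (hB : BtsumStmt) (c : ℕ) (ε : ℝ)
    (hε : 0 < ε) : ∃ x₀ : ℕ, ∀ x : ℕ, x₀ ≤ x →
      (((Icc 1 x).filter (fun n => Odd n ∧ Squarefree n ∧ ¬ Fine c n)).card : ℝ) ≤ ε * x := by
  obtain ⟨x₀, h⟩ := orders2_of hM hR hB c ε hε
  refine ⟨x₀, fun x hx => le_trans (Nat.cast_le.mpr (card_le_card (fun n hn => ?_))) (h x hx)⟩
  rw [mem_filter] at hn ⊢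
  exact ⟨hn.1, hn.2.1, hn.2.2.2⟩

end Pool.Agent.Lib.MP_688fd0_co.OSF.H38
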