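import Mathlib
import Pool.Agent.Lib.MP_688fd0_co.OSF.H38.Ord3

/-!
MP_688fd0_co, odd squarefree orders: groups whose order is squarefree and fine.
-/

set_option autoImplicit false

namespace Pool.Agent.Lib.MP_688fd0_co.OSF.H38

open Subgroup

universe u

variable {G : Type u} [Group G]

/-- the hypothesis on the prime `P` -/
def Cen (n P : ℕ) : Prop := P ∈ n.primeFactors ∧
  ∀ q ∈ n.primeFactors, ¬ q ∣ P - 1 ∧ ¬ P ∣ q - 1

lemma Cen.prime {n P : ℕ} (h : Cen n P) : P.Prime := Nat.prime_of_mem_primeFactors h.1

lemma Cen.coprime {n P : ℕ} (h : Cen n P) (hn : n ≠ 0) : Nat.Coprime n (P - 1) := by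
  rw [Nat.coprime_iff_gcd_eq_one]
  by_contra hne
  obtain ⟨q, hq, hqd⟩ := Nat.exists_prime_and_dvd hne
  have h1 : q ∣ n := hqd.trans (Nat.gcd_dvd_left _ _)
  have h2 : q ∣ P - 1 := hqd.trans (Nat.gcd_dvd_right _ _)
  exact (h.2 q (Nat.mem_primeFactors.mpr ⟨hq, h1, hn⟩)).1 h2

open scoped IsMulCommutative in
/-- `P` does not divide the order of the commutator subgroup -/
theorem not_dvd_commutator (hsq : Squarefree (Nat.card G)) {P : ℕ} (hP : Cen (Nat.card G) P) :
    ¬ P ∣ Nat.card (commutator G) := by
  have : Finite G := Nat.finite_of_card_ne_zero hsq.ne_zero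
  have hz : IsZGroup G := IsZGroup.of_squarefree hsq
  have := Fact.mk hP.prime
  let S : Sylow P G := default
  have hS : IsCyclic S := inferInstance
  have hle : normalizer (S : Subgroup G) ≤ centralizer (S : Set G) := by
    have key := card_dvd_of_injective _
      (QuotientGroup.kerLift_injective (S : Subgroup G).normalizerMonoidHom)
    rw [normalizerMonoidHom_ker, ← index, ← relIndex] at key
    refine relIndex_eq_one.mp (Nat.eq_one_of_dvd_coprimes ?_ dvd_rfl key)
    obtain ⟨k, hk⟩ := S.2.exists_card_eq
    have hk1 : k ≤ 1 := by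
      by_contra h
      have h2 : P * P ∣ Nat.card G := by
        have h3 : P ^ 2 ∣ P ^ k := pow_dvd_pow P (by omega)
        rw [← hk] at h3
        rw [← sq]
        exact h3.trans (card_subgroup_dvd_card _)
      exact hP.prime.one_lt.ne' (Nat.isUnit_iff.mp (hsq P h2))
    rcases Nat.eq_zero_or_pos k with h0 | h0
    · rw [hS.card_mulAut, hk, h0, pow_zero, Nat.totient_one]
      apply Nat.coprime_one_right
    · have : k = 1 := by omega
      rw [hS.card_mulAut, hk, this, pow_one, Nat.totient_prime hP.prime]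
      apply Nat.Coprime.coprime_dvd_left <| relIndex_dvd_card ..
      apply Nat.Coprime.coprime_dvd_left <| card_subgroup_dvd_card _
      exact hP.coprime hsq.ne_zero
  intro h
  have h1 : Nat.card (commutator G) ∣ Nat.card (MonoidHom.transferSylow S hle).ker :=
    card_dvd_of_le (Abelianization.commutator_subset_ker _)
  exact MonoidHom.not_dvd_card_ker_transferSylow S hle (h.trans h1)

/-- conjugation on the commutator subgroup -/
lemma conj_pow_comm (g : G) (k : ℕ)
    (hk : (MulAut.conjNormal (H := commutator G) g) ^ k = 1) (x : G) (hx : x ∈ commutator G) :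
    g ^ k * x = x * g ^ k := by
  rw [← map_pow] at hk
  have h1 := congrArg (fun f => ((f ⟨x, hx⟩ : commutator G) : G)) hk
  simp only [MulAut.conjNormal_apply, MulAut.one_apply] at h1
  calc g ^ k * x = g ^ k * x * (g ^ k)⁻¹ * g ^ k := by group
    _ = x * g ^ k := by rw [h1]

lemma card_mulAut_commutator (hsq : Squarefree (Nat.card G)) {q : ℕ} (hq : q.Prime)
    (h : q ∣ Nat.card (MulAut (commutator G))) :
    ∃ p ∈ (Nat.card G).primeFactors, q ∣ p - 1 := by
  have : Finite G := Nat.finite_of_card_ne_zero hsq.ne_zero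
  have hz : IsZGroup G := IsZGroup.of_squarefree hsq
  have hc : IsCyclic (commutator G) := IsZGroup.isCyclic_commutator G
  rw [hc.card_mulAut] at h
  have hd : Nat.card (commutator G) ∣ Nat.card G := card_subgroup_dvd_card _
  have hsqm : Squarefree (Nat.card (commutator G)) := hsq.squarefree_of_dvd hd
  rw [Nat.totient_eq_prod_factorization hsqm.ne_zero, Finsupp.prod, Nat.support_factorization,
    Prime.dvd_finsetProd_iff hq.prime] at h
  obtain ⟨p, hp, hqp⟩ := h
  have hpp := Nat.prime_of_mem_primeFactors hp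
  have hf : (Nat.card (commutator G)).factorization p = 1 := by
    have h1 := hsqm.natFactorization_le_one p
    have h2 := hpp.factorization_pos_of_dvd hsqm.ne_zero (Nat.dvd_of_mem_primeFactors hp)
    omega
  rw [hf] at hqp
  simp only [Nat.sub_self, pow_zero, one_mul] at hqp
  exact ⟨p, Nat.mem_primeFactors.mpr ⟨hpp, (Nat.dvd_of_mem_primeFactors hp).trans hd,
    hsq.ne_zero⟩, hqp⟩

/-- elements of order `P` are central -/
theorem mem_center_of_orderOf (hsq : Squarefree (Nat.card G)) {P : ℕ} (hP : Cen (Nat.card G) P)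
    (g : G) (hg : g ^ P = 1) : g ∈ center G := by
  have : Finite G := Nat.finite_of_card_ne_zero hsq.ne_zero
  have hPp := hP.prime
  -- g centralises the commutator subgroup
  have hcen : ∀ x ∈ commutator G, g * x = x * g := by
    intro x hx
    have h1 : (MulAut.conjNormal (H := commutator G) g) ^ P = 1 := by
      rw [← map_pow, hg, map_one]
    have h2 : (MulAut.conjNormal (H := commutator G) g) ^ Nat.card (MulAut (commutator G)) = 1 :=
      pow_card_eq_one'
    have h3 : Nat.Coprime P (Nat.card (MulAut (commutator G))) := by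
      rw [Nat.Prime.coprime_iff_not_dvd hPp]
      intro h
      obtain ⟨p, hp, hd⟩ := card_mulAut_commutator hsq hPp h
      exact (hP.2 p hp).2 hd
    have h4 : orderOf (MulAut.conjNormal (H := commutator G) g) = 1 :=
      Nat.eq_one_of_dvd_coprimes h3 (orderOf_dvd_of_pow_eq_one h1) (orderOf_dvd_of_pow_eq_one h2)
    have h5 := conj_pow_comm g 1 (by rw [pow_one]; exact orderOf_eq_one_iff.mp h4) x hx
    simpa using h5
  rw [mem_center_iff]
  intro h
  -- y = [g, h]
  set y : G := g * h * g⁻¹ * h⁻¹ with hy
  have hyc : y ∈ commutator G := by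
    rw [commutator_eq_closure]
    exact subset_closure ⟨g, h, rfl⟩
  have hgy : Commute y⁻¹ g := (hcen y⁻¹ (inv_mem hyc)).symm
  have e1 : h * g * h⁻¹ = y⁻¹ * g := by rw [hy]; group
  have e2 : (h * g * h⁻¹) ^ P = 1 := by rw [conj_pow, hg]; group
  rw [e1, hgy.mul_pow, hg, mul_one] at e2
  have e3 : y ^ P = 1 := by
    rw [inv_pow, inv_eq_one] at e2
    exact e2
  have hco : Nat.Coprime P (Nat.card (commutator G)) := by
    rw [Nat.Prime.coprime_iff_not_dvd hPp]
    exact not_dvd_commutator hsq hP
  have h6 : (⟨y, hyc⟩ : commutator G) ^ P = 1 := by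
    ext
    simpa using e3
  have h7 : orderOf (⟨y, hyc⟩ : commutator G) = 1 :=
    Nat.eq_one_of_dvd_coprimes hco (orderOf_dvd_of_pow_eq_one h6) (orderOf_dvd_natCard _)
  have h8 : y = 1 := by
    have := orderOf_eq_one_iff.mp h7
    simpa using congrArg Subtype.val this
  rw [h8, inv_one, one_mul] at e1
  calc h * g = h * g * h⁻¹ * h := by group
    _ = g * h := by rw [e1]

/-- the exponent of the action on the commutator subgroup divides `KK n` -/
theorem pow_KK_comm (hsq : Squarefree (Nat.card G)) (g x : G) (hx : x ∈ commutator G) :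
    g ^ KK (Nat.card G) * x = x * g ^ KK (Nat.card G) := by
  have : Finite G := Nat.finite_of_card_ne_zero hsq.ne_zero
  refine conj_pow_comm g _ ?_ x hx
  rw [← orderOf_dvd_iff_pow_eq_one]
  set φ := MulAut.conjNormal (H := commutator G) g with hφ
  have h1 : orderOf φ ∣ Nat.card G :=
    (orderOf_map_dvd (MulAut.conjNormal (H := commutator G)) g).trans (orderOf_dvd_natCard g)
  have hsq1 : Squarefree (orderOf φ) := hsq.squarefree_of_dvd h1
  rw [← Nat.prod_primeFactors_of_squarefree hsq1]
  unfold KK
  refine Finset.prod_dvd_prod_of_subset _ _ _ fun q hq => ?_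
  have hqp := Nat.prime_of_mem_primeFactors hq
  have hqd := Nat.dvd_of_mem_primeFactors hq
  rw [Finset.mem_filter]
  refine ⟨Nat.mem_primeFactors.mpr ⟨hqp, hqd.trans h1, hsq.ne_zero⟩, ?_⟩
  exact card_mulAut_commutator hsq hqp (hqd.trans (orderOf_dvd_natCard φ))

/-- some member of a generating set has order divisible by `P` modulo the commutator subgroup -/
theorem exists_dvd_orderOf (hsq : Squarefree (Nat.card G)) {P : ℕ} (hP : Cen (Nat.card G) P)
    (A : Set G) (hA : closure A = ⊤) :
    ∃ a ∈ A, P ∣ orderOf (Abelianization.of a) := by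
  have : Finite G := Nat.finite_of_card_ne_zero hsq.ne_zero
  have hPp := hP.prime
  have := Fact.mk hPp
  by_contra hcon
  push Not at hcon
  have hcard : Nat.card (Abelianization G) * Nat.card (commutator G) = Nat.card G :=
    (Subgroup.card_eq_card_quotient_mul_card_subgroup (commutator G)).symm
  have hdA : P ∣ Nat.card (Abelianization G) := by
    have h1 : P ∣ Nat.card (Abelianization G) * Nat.card (commutator G) := by
      rw [hcard]; exact Nat.dvd_of_mem_primeFactors hP.1
    exact (hPp.dvd_mul.mp h1).resolve_right (not_dvd_commutator hsq hP)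
  obtain ⟨k, hk⟩ := hdA
  have hPk : ¬ P ∣ k := by
    rintro ⟨j, hj⟩
    have h2 : P * P ∣ Nat.card G := by
      rw [← hcard, hk, hj]
      exact ⟨j * Nat.card (commutator G), by ring⟩
    exact hPp.one_lt.ne' (Nat.isUnit_iff.mp (hsq P h2))
  have hall : ∀ x : Abelianization G, x ^ k = 1 := by
    have hker : (⊤ : Subgroup G) ≤ ((powMonoidHom k).comp
        (Abelianization.of : G →* Abelianization G)).ker := by
      rw [← hA, closure_le]
      intro a ha
      simp only [SetLike.mem_coe, MonoidHom.mem_ker, MonoidHom.comp_apply, powMonoidHom_apply]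
      rw [← orderOf_dvd_iff_pow_eq_one]
      have h1 : orderOf (Abelianization.of a) ∣ P * k := by
        rw [← hk]; exact orderOf_dvd_natCard _
      refine Nat.Coprime.dvd_of_dvd_mul_left ?_ h1
      rw [Nat.coprime_comm, Nat.Prime.coprime_iff_not_dvd hPp]
      exact hcon a ha
    intro x
    obtain ⟨g, rfl⟩ : ∃ g : G, Abelianization.of g = x := QuotientGroup.mk_surjective x
    have := hker (mem_top g)
    simpa only [MonoidHom.mem_ker, MonoidHom.comp_apply, powMonoidHom_apply] using this
  obtain ⟨x, hx⟩ := exists_prime_orderOf_dvd_card' (G := Abelianization G) P ⟨k, hk⟩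
  exact hPk (hx ▸ orderOf_dvd_of_pow_eq_one (hall x))

end Pool.Agent.Lib.MP_688fd0_co.OSF.H38
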