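import Mathlib

/-!
MP_688fd0_co, odd squarefree orders: counting lemmas for the module ORDERS.
-/

set_option autoImplicit false

namespace Pool.Agent.Lib.MP_688fd0_co.OSF.H38

open Finset

/-- an upper bound for the harmonic sum up to `x` -/
def ell (x : ℕ) : ℕ := Nat.log 2 x + 2

lemma two_le_ell (x : ℕ) : 2 ≤ ell x := by unfold ell; omega

lemma ell_pos (x : ℕ) : (0 : ℝ) < ell x := by
  have := two_le_ell x
  exact_mod_cast (by omega : 0 < ell x)

lemma harm_le (x : ℕ) : ∑ k ∈ Ioc 0 x, (1 : ℝ) / k ≤ ell x := by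
  have h1 : ∑ k ∈ Ioc 0 x, (1 : ℝ) / k = ((harmonic x : ℚ) : ℝ) := by
    rw [harmonic_eq_sum_Icc]
    push_cast
    refine Finset.sum_congr (by ext k; simp [Nat.lt_iff_add_one_le]) fun k _ => by
      rw [one_div]
  rw [h1]
  refine (harmonic_le_one_add_log x).trans ?_
  unfold ell
  rcases Nat.eq_zero_or_pos x with h | h
  · subst h; simp
  have h2 : (x : ℝ) ≤ 2 ^ (Nat.log 2 x + 1) := by
    exact_mod_cast (Nat.lt_pow_succ_log_self (by norm_num : 1 < 2) x).le
  have h3 : Real.log x ≤ (Nat.log 2 x + 1) * Real.log 2 := by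
    have := Real.log_le_log (by exact_mod_cast h) h2
    rw [Real.log_pow] at this
    exact_mod_cast this
  have h4 : Real.log 2 ≤ 1 := by have := Real.log_two_lt_d9; linarith
  have h5 : (0 : ℝ) ≤ (Nat.log 2 x : ℝ) := Nat.cast_nonneg _
  push_cast
  nlinarith

lemma card_mult (x m : ℕ) : (((Ioc 0 x).filter fun n => m ∣ n).card : ℝ) ≤ x / m := by
  rw [Nat.Ioc_filter_dvd_card_eq_div]
  exact Nat.cast_div_le

lemma card_mult_ge (x m : ℕ) : (x : ℝ) / m - 1 ≤ (((Ioc 0 x).filter fun n => m ∣ n).card : ℝ) := by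
  rw [Nat.Ioc_filter_dvd_card_eq_div]
  rcases Nat.eq_zero_or_pos m with h | h
  · subst h; simp
  have := Nat.lt_floor_add_one ((x : ℝ) / m)
  rw [Nat.floor_div_eq_div] at this
  linarith

/-- pairs `q ∣ p - 1` of prime factors with `q` large are rare -/
lemma bad1 (x Y : ℕ) (hY : 0 < Y) :
    (((Ioc 0 x).filter fun n => ∃ q ∈ n.primeFactors, ∃ p ∈ n.primeFactors,
      Y < q ∧ q ∣ p - 1).card : ℝ) ≤ x * ell x / Y := by
  classical
  have hsub : ((Ioc 0 x).filter fun n => ∃ q ∈ n.primeFactors, ∃ p ∈ n.primeFactors,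
      Y < q ∧ q ∣ p - 1) ⊆
      (Ioc Y (max Y x)).biUnion fun q => (Ioc 0 x).biUnion fun k =>
        (Ioc 0 x).filter fun n => q * (k * q + 1) ∣ n := by
    intro n hn
    simp only [mem_filter, mem_Ioc] at hn
    obtain ⟨⟨hn0, hnx⟩, q, hq, p, hp, hYq, hd⟩ := hn
    have hqp := Nat.prime_of_mem_primeFactors hq
    have hpp := Nat.prime_of_mem_primeFactors hp
    have hqn := Nat.dvd_of_mem_primeFactors hq
    have hpn := Nat.dvd_of_mem_primeFactors hp
    obtain ⟨k, hk⟩ := hd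
    have hp1 : p = k * q + 1 := by
      have := hpp.two_le
      rw [mul_comm] at hk
      omega
    have hk0 : 0 < k := by
      rcases Nat.eq_zero_or_pos k with h | h
      · subst h
        have := hpp.two_le
        omega
      · exact h
    have hne : q ≠ p := by
      intro h
      have : q ≤ k * q := Nat.le_mul_of_pos_left q hk0
      omega
    have hcop : Nat.Coprime q p := (Nat.coprime_primes hqp hpp).mpr hne
    have hdvd : q * p ∣ n := hcop.mul_dvd_of_dvd_of_dvd hqn hpn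
    have hqx : q ≤ x := (Nat.le_of_dvd hn0 hqn).trans hnx
    have hkx : k ≤ x := by
      have h1 : p ≤ x := (Nat.le_of_dvd hn0 hpn).trans hnx
      have h2 : k ≤ k * q := Nat.le_mul_of_pos_right k hqp.pos
      omega
    simp only [mem_biUnion, mem_Ioc, mem_filter]
    exact ⟨q, ⟨hYq, hqx.trans (le_max_right _ _)⟩, k, ⟨hk0, hkx⟩, ⟨hn0, hnx⟩, by rw [← hp1]; exact hdvd⟩
  have hYm : Y ≤ max Y x := le_max_left _ _
  calc (((Ioc 0 x).filter fun n => ∃ q ∈ n.primeFactors, ∃ p ∈ n.primeFactors,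
      Y < q ∧ q ∣ p - 1).card : ℝ)
      ≤ ∑ q ∈ Ioc Y (max Y x), ∑ k ∈ Ioc 0 x,
        (((Ioc 0 x).filter fun n => q * (k * q + 1) ∣ n).card : ℝ) := by
        have h := (Finset.card_le_card hsub).trans (Finset.card_biUnion_le.trans
          (Finset.sum_le_sum fun q _ => Finset.card_biUnion_le))
        exact_mod_cast h
    _ ≤ ∑ q ∈ Ioc Y (max Y x), ∑ k ∈ Ioc 0 x, (x : ℝ) * ((1 / k) * ((q : ℝ) ^ 2)⁻¹) := by
        refine Finset.sum_le_sum fun q hq => Finset.sum_le_sum fun k hk => ?_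
        refine (card_mult _ _).trans ?_
        rw [mem_Ioc] at hq hk
        have hq0 : (0 : ℝ) < q := by exact_mod_cast (by omega : 0 < q)
        have hk0 : (0 : ℝ) < k := by exact_mod_cast hk.1
        rw [div_eq_mul_inv]
        refine mul_le_mul_of_nonneg_left ?_ (Nat.cast_nonneg x)
        rw [one_div, ← mul_inv]
        refine inv_anti₀ (by positivity) ?_
        push_cast
        nlinarith
    _ = x * ((∑ k ∈ Ioc 0 x, (1 : ℝ) / k) * ∑ q ∈ Ioc Y (max Y x), ((q : ℝ) ^ 2)⁻¹) := by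
        rw [Finset.sum_mul_sum, Finset.sum_comm, Finset.mul_sum]
        refine Finset.sum_congr rfl fun k _ => ?_
        rw [Finset.mul_sum]
    _ ≤ x * (ell x * (Y : ℝ)⁻¹) := by
        refine mul_le_mul_of_nonneg_left ?_ (Nat.cast_nonneg x)
        refine mul_le_mul (harm_le x) ?_ (Finset.sum_nonneg fun q _ => by positivity)
          (Nat.cast_nonneg _)
        refine (sum_Ioc_inv_sq_le_sub (α := ℝ) (by omega) hYm).trans ?_
        have : (0 : ℝ) ≤ ((max Y x : ℕ) : ℝ)⁻¹ := by positivity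
        linarith
    _ = x * ell x / Y := by rw [div_eq_mul_inv]; ring

/-- many prime factors are rare -/
lemma bad2 (x B : ℕ) (hB : 0 < B) :
    (((Ioc 0 x).filter fun n => B ≤ 2 ^ n.primeFactors.card).card : ℝ) ≤ x * ell x / B := by
  classical
  have hB0 : (0 : ℝ) < B := by exact_mod_cast hB
  rw [le_div_iff₀ hB0]
  have h1 : ((((Ioc 0 x).filter fun n => B ≤ 2 ^ n.primeFactors.card).card : ℝ)) * B ≤
      ∑ n ∈ Ioc 0 x, (2 : ℝ) ^ n.primeFactors.card := by
    rw [← nsmul_eq_mul]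
    refine (Finset.card_nsmul_le_sum _ (fun n => (2 : ℝ) ^ n.primeFactors.card) _ ?_).trans ?_
    · intro n hn
      rw [mem_filter] at hn
      exact_mod_cast hn.2
    · exact Finset.sum_le_sum_of_subset_of_nonneg (Finset.filter_subset _ _)
        fun _ _ _ => by positivity
  refine h1.trans ?_
  have h2 : ∀ n ∈ Ioc 0 x, (2 : ℝ) ^ n.primeFactors.card ≤
      ∑ d ∈ Ioc 0 x, if d ∣ n then (1 : ℝ) else 0 := by
    intro n hn
    rw [mem_Ioc] at hn
    have h3 : 2 ^ n.primeFactors.card ≤ n.divisors.card := by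
      rw [Nat.card_divisors (by omega)]
      calc 2 ^ n.primeFactors.card = ∏ _p ∈ n.primeFactors, 2 := by rw [Finset.prod_const]
        _ ≤ ∏ p ∈ n.primeFactors, (n.factorization p + 1) := by
            refine Finset.prod_le_prod' fun p hp => ?_
            have := (Nat.prime_of_mem_primeFactors hp).factorization_pos_of_dvd (by omega)
              (Nat.dvd_of_mem_primeFactors hp)
            omega
    have h4 : (n.divisors.card : ℝ) ≤ ∑ d ∈ Ioc 0 x, if d ∣ n then (1 : ℝ) else 0 := by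
      rw [← Finset.sum_filter, Finset.sum_const, nsmul_eq_mul, mul_one]
      have hh : n.divisors.card ≤ ((Ioc 0 x).filter fun d => d ∣ n).card := by
        refine Finset.card_le_card fun d hd => ?_
        rw [Nat.mem_divisors] at hd
        rw [mem_filter, mem_Ioc]
        exact ⟨⟨Nat.pos_of_dvd_of_pos hd.1 hn.1, (Nat.le_of_dvd hn.1 hd.1).trans hn.2⟩, hd.1⟩
      exact_mod_cast hh
    refine le_trans ?_ h4
    exact_mod_cast h3
  refine (Finset.sum_le_sum h2).trans ?_
  rw [Finset.sum_comm]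
  calc ∑ d ∈ Ioc 0 x, ∑ n ∈ Ioc 0 x, (if d ∣ n then (1 : ℝ) else 0)
      = ∑ d ∈ Ioc 0 x, (((Ioc 0 x).filter fun n => d ∣ n).card : ℝ) := by
        refine Finset.sum_congr rfl fun d _ => ?_
        rw [← Finset.sum_filter, Finset.sum_const, nsmul_eq_mul, mul_one]
    _ ≤ ∑ d ∈ Ioc 0 x, (x : ℝ) * (1 / d) := by
        refine Finset.sum_le_sum fun d _ => (card_mult _ _).trans_eq ?_
        ring
    _ = x * ∑ d ∈ Ioc 0 x, (1 : ℝ) / d := by rw [Finset.mul_sum]
    _ ≤ x * ell x := mul_le_mul_of_nonneg_left (harm_le x) (Nat.cast_nonneg x)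

/-- Markov for the smooth part -/
lemma bad3 (x : ℕ) (Q : Finset ℕ) (L : ℝ) (hL : 0 < L) :
    (((Ioc 0 x).filter fun n => L ≤ ∑ q ∈ Q.filter (fun q => q ∣ n), Real.log q).card : ℝ) ≤
      x * (∑ q ∈ Q, Real.log q / q) / L := by
  classical
  rw [le_div_iff₀ hL]
  have h1 : ((((Ioc 0 x).filter fun n => L ≤ ∑ q ∈ Q.filter (fun q => q ∣ n),
      Real.log q).card : ℝ)) * L ≤ ∑ n ∈ Ioc 0 x, ∑ q ∈ Q.filter (fun q => q ∣ n), Real.log q := by
    rw [← nsmul_eq_mul]
    refine (Finset.card_nsmul_le_sum _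
      (fun n => ∑ q ∈ Q.filter (fun q => q ∣ n), Real.log q) _ ?_).trans ?_
    · intro n hn
      rw [mem_filter] at hn
      exact hn.2
    · exact Finset.sum_le_sum_of_subset_of_nonneg (Finset.filter_subset _ _)
        fun n _ _ => Finset.sum_nonneg fun q _ => Real.log_natCast_nonneg q
  refine h1.trans ?_
  calc ∑ n ∈ Ioc 0 x, ∑ q ∈ Q.filter (fun q => q ∣ n), Real.log q
      = ∑ n ∈ Ioc 0 x, ∑ q ∈ Q, if q ∣ n then Real.log q else 0 := by
        refine Finset.sum_congr rfl fun n _ => ?_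
        rw [Finset.sum_filter]
    _ = ∑ q ∈ Q, ∑ n ∈ Ioc 0 x, if q ∣ n then Real.log q else 0 := Finset.sum_comm
    _ = ∑ q ∈ Q, (((Ioc 0 x).filter fun n => q ∣ n).card : ℝ) * Real.log q := by
        refine Finset.sum_congr rfl fun q _ => ?_
        rw [← Finset.sum_filter, Finset.sum_const, nsmul_eq_mul]
    _ ≤ ∑ q ∈ Q, (x : ℝ) * (Real.log q / q) := by
        refine Finset.sum_le_sum fun q _ => ?_
        refine (mul_le_mul_of_nonneg_right (card_mult x q) (Real.log_natCast_nonneg q)).trans_eq ?_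
        ring
    _ = x * ∑ q ∈ Q, Real.log q / q := by rw [Finset.mul_sum]

/-- the Turan inequality -/
lemma turan (x : ℕ) (S : Finset ℕ) (hS : ∀ p ∈ S, p.Prime) (hc : S.card ≤ x) :
    ∑ n ∈ Ioc 0 x, (((S.filter (fun p => p ∣ n)).card : ℝ) - ∑ p ∈ S, (1 : ℝ) / p) ^ 2 ≤
      3 * x * ∑ p ∈ S, (1 : ℝ) / p := by
  classical
  set μ : ℝ := ∑ p ∈ S, (1 : ℝ) / p with hμ
  have hμ0 : 0 ≤ μ := Finset.sum_nonneg fun p _ => by positivity
  have hN : ∀ n, ((S.filter (fun p => p ∣ n)).card : ℝ) = ∑ p ∈ S, if p ∣ n then (1 : ℝ) else 0 := by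
    intro n
    rw [← Finset.sum_filter, Finset.sum_const, nsmul_eq_mul, mul_one]
  have h1 : ∑ n ∈ Ioc 0 x, ((S.filter (fun p => p ∣ n)).card : ℝ) ^ 2 ≤ x * μ + x * μ ^ 2 := by
    calc ∑ n ∈ Ioc 0 x, ((S.filter (fun p => p ∣ n)).card : ℝ) ^ 2
        = ∑ n ∈ Ioc 0 x, ∑ p ∈ S, ∑ q ∈ S, (if p ∣ n then (1 : ℝ) else 0) *
            (if q ∣ n then (1 : ℝ) else 0) := by
          refine Finset.sum_congr rfl fun n _ => ?_
          rw [hN, sq, Finset.sum_mul_sum]
      _ = ∑ p ∈ S, ∑ q ∈ S, ∑ n ∈ Ioc 0 x, (if p ∣ n then (1 : ℝ) else 0) *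
            (if q ∣ n then (1 : ℝ) else 0) := by
          rw [Finset.sum_comm]
          refine Finset.sum_congr rfl fun p _ => ?_
          rw [Finset.sum_comm]
      _ ≤ ∑ p ∈ S, ∑ q ∈ S, ((if p = q then (x : ℝ) / p else 0) + x * ((1 / p) * (1 / q))) := by
          refine Finset.sum_le_sum fun p hp => Finset.sum_le_sum fun q hq => ?_
          by_cases hpq : p = q
          · subst hpq
            rw [if_pos rfl]
            have e : ∑ n ∈ Ioc 0 x, (if p ∣ n then (1 : ℝ) else 0) * (if p ∣ n then (1 : ℝ) else 0)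
                = (((Ioc 0 x).filter fun n => p ∣ n).card : ℝ) := by
              rw [Finset.card_filter]
              push_cast
              refine Finset.sum_congr rfl fun n _ => ?_
              by_cases h : p ∣ n <;> simp [h]
            rw [e]
            have := card_mult x p
            have h2 : (0 : ℝ) ≤ x * ((1 / p) * (1 / p)) := by positivity
            linarith
          · rw [if_neg hpq, zero_add]
            have hcop : Nat.Coprime p q := (Nat.coprime_primes (hS p hp) (hS q hq)).mpr hpq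
            have e : ∑ n ∈ Ioc 0 x, (if p ∣ n then (1 : ℝ) else 0) * (if q ∣ n then (1 : ℝ) else 0)
                = (((Ioc 0 x).filter fun n => p * q ∣ n).card : ℝ) := by
              rw [Finset.card_filter]
              push_cast
              refine Finset.sum_congr rfl fun n _ => ?_
              by_cases h : p ∣ n
              · by_cases h' : q ∣ n
                · simp [h, h', hcop.mul_dvd_of_dvd_of_dvd h h']
                · have : ¬ p * q ∣ n := fun h'' => h' ((Dvd.intro_left p rfl).trans h'')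
                  simp [h', this]
              · have : ¬ p * q ∣ n := fun h'' => h ((Dvd.intro q rfl).trans h'')
                simp [h, this]
            rw [e]
            refine (card_mult _ _).trans_eq ?_
            push_cast
            rw [div_eq_mul_inv, mul_inv, one_div, one_div]
      _ = x * μ + x * μ ^ 2 := by
          have e1 : ∑ p ∈ S, ∑ q ∈ S, (if p = q then (x : ℝ) / p else 0) = x * μ := by
            rw [hμ, Finset.mul_sum]
            refine Finset.sum_congr rfl fun p hp => ?_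
            rw [Finset.sum_ite_eq, if_pos hp]
            ring
          have e2 : ∑ p ∈ S, ∑ q ∈ S, (x : ℝ) * ((1 / p) * (1 / q)) = x * μ ^ 2 := by
            rw [sq, hμ, Finset.sum_mul_sum, Finset.mul_sum]
            refine Finset.sum_congr rfl fun p _ => ?_
            rw [Finset.mul_sum]
          rw [← e1, ← e2, ← Finset.sum_add_distrib]
          refine Finset.sum_congr rfl fun p _ => ?_
          rw [← Finset.sum_add_distrib]
  have h2 : x * μ - x ≤ ∑ n ∈ Ioc 0 x, ((S.filter (fun p => p ∣ n)).card : ℝ) := by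
    calc x * μ - x ≤ x * μ - S.card := by
          have : (S.card : ℝ) ≤ x := by exact_mod_cast hc
          linarith
      _ = ∑ p ∈ S, ((x : ℝ) / p - 1) := by
          rw [Finset.sum_sub_distrib, hμ, Finset.mul_sum]
          simp [div_eq_mul_inv]
      _ ≤ ∑ p ∈ S, (((Ioc 0 x).filter fun n => p ∣ n).card : ℝ) :=
          Finset.sum_le_sum fun p _ => card_mult_ge x p
      _ = ∑ n ∈ Ioc 0 x, ((S.filter (fun p => p ∣ n)).card : ℝ) := by
          simp_rw [hN]
          rw [Finset.sum_comm]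
          refine Finset.sum_congr rfl fun p _ => ?_
          rw [Finset.card_filter]
          push_cast
          rfl
  have h3 : ∑ n ∈ Ioc 0 x, (((S.filter (fun p => p ∣ n)).card : ℝ) - μ) ^ 2 =
      ∑ n ∈ Ioc 0 x, ((S.filter (fun p => p ∣ n)).card : ℝ) ^ 2 -
        2 * μ * ∑ n ∈ Ioc 0 x, ((S.filter (fun p => p ∣ n)).card : ℝ) + x * μ ^ 2 := by
    rw [Finset.mul_sum, ← Finset.sum_sub_distrib]
    have : (x : ℝ) * μ ^ 2 = ∑ _n ∈ Ioc 0 x, μ ^ 2 := by simp
    rw [this, ← Finset.sum_add_distrib]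
    refine Finset.sum_congr rfl fun n _ => by ring
  rw [h3]
  have h4 : 2 * μ * (x * μ - x) ≤
      2 * μ * ∑ n ∈ Ioc 0 x, ((S.filter (fun p => p ∣ n)).card : ℝ) :=
    mul_le_mul_of_nonneg_left h2 (by positivity)
  nlinarith

/-- few `n` have few prime factors in `S` -/
lemma bad4 (x : ℕ) (S : Finset ℕ) (hS : ∀ p ∈ S, p.Prime) (hc : S.card ≤ x) (μ : ℝ) (hμ0 : 0 < μ)
    (hμ : μ ≤ ∑ p ∈ S, (1 : ℝ) / p) :
    (((Ioc 0 x).filter fun n => ((S.filter (fun p => p ∣ n)).card : ℝ) ≤ μ / 2).card : ℝ) ≤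
      12 * x / μ := by
  classical
  set m : ℝ := ∑ p ∈ S, (1 : ℝ) / p with hm
  have hm0 : 0 < m := hμ0.trans_le hμ
  have h1 : ((((Ioc 0 x).filter fun n => ((S.filter (fun p => p ∣ n)).card : ℝ) ≤ μ / 2).card : ℝ))
      * (m / 2) ^ 2 ≤ 3 * x * m := by
    refine le_trans ?_ (turan x S hS hc)
    rw [← nsmul_eq_mul]
    refine (Finset.card_nsmul_le_sum _
      (fun n => (((S.filter (fun p => p ∣ n)).card : ℝ) - m) ^ 2) _ ?_).trans ?_
    · intro n hn
      rw [mem_filter] at hn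
      have h2 : (m / 2) ≤ m - ((S.filter (fun p => p ∣ n)).card : ℝ) := by
        have := hn.2
        linarith
      have h3 : (m / 2) ^ 2 ≤ (m - ((S.filter (fun p => p ∣ n)).card : ℝ)) ^ 2 :=
        pow_le_pow_left₀ (by positivity) h2 2
      calc (m / 2) ^ 2 ≤ (m - ((S.filter (fun p => p ∣ n)).card : ℝ)) ^ 2 := h3
        _ = (((S.filter (fun p => p ∣ n)).card : ℝ) - m) ^ 2 := by ring
    · exact Finset.sum_le_sum_of_subset_of_nonneg (Finset.filter_subset _ _)
        fun _ _ _ => by positivity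
  have h2 : (((Ioc 0 x).filter fun n => ((S.filter (fun p => p ∣ n)).card : ℝ) ≤ μ / 2).card : ℝ) ≤
      12 * x / m := by
    rw [le_div_iff₀ hm0]
    have h5 : ((((Ioc 0 x).filter fun n => ((S.filter (fun p => p ∣ n)).card : ℝ) ≤
        μ / 2).card : ℝ)) * m * (m / 4) ≤ 12 * x * (m / 4) := by nlinarith
    exact le_of_mul_le_mul_right h5 (by positivity)
  refine h2.trans ?_
  gcongr

/-- pairs `P ∈ S`, `q ∈ Q`, `q ∣ P - 1`, both dividing `n` -/
lemma bad5 (x : ℕ) (S Q : Finset ℕ) (hS : ∀ p ∈ S, p.Prime) (hQ : ∀ q ∈ Q, q.Prime)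
    (A m : ℝ) (hm : 0 < m)
    (hA : ∑ q ∈ Q, (1 : ℝ) / q * ∑ p ∈ S.filter (fun p => q ∣ p - 1), (1 : ℝ) / p ≤ A) :
    (((Ioc 0 x).filter fun n => m ≤
      (((S.filter (fun p => p ∣ n)).filter (fun p => ∃ q ∈ Q, q ∣ n ∧ q ∣ p - 1)).card : ℝ)).card : ℝ) ≤
      x * A / m := by
  classical
  rw [le_div_iff₀ hm]
  have h0 : ∀ n, ((((S.filter (fun p => p ∣ n)).filter
      (fun p => ∃ q ∈ Q, q ∣ n ∧ q ∣ p - 1)).card : ℝ)) ≤
      ∑ q ∈ Q, ∑ p ∈ S.filter (fun p => q ∣ p - 1), if q * p ∣ n then (1 : ℝ) else 0 := by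
    intro n
    have hsub : ((S.filter (fun p => p ∣ n)).filter (fun p => ∃ q ∈ Q, q ∣ n ∧ q ∣ p - 1)) ⊆
        Q.biUnion fun q => (S.filter (fun p => q ∣ p - 1)).filter (fun p => q * p ∣ n) := by
      intro p hp
      simp only [mem_filter] at hp
      obtain ⟨⟨hpS, hpn⟩, q, hqQ, hqn, hqd⟩ := hp
      simp only [mem_biUnion, mem_filter]
      refine ⟨q, hqQ, ⟨hpS, hqd⟩, ?_⟩
      have hne : q ≠ p := by
        intro h
        subst h
        have h2 := (hQ q hqQ).two_le
        have := Nat.le_of_dvd (by omega) hqd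
        omega
      exact ((Nat.coprime_primes (hQ q hqQ) (hS p hpS)).mpr hne).mul_dvd_of_dvd_of_dvd hqn hpn
    have h := (Finset.card_le_card hsub).trans Finset.card_biUnion_le
    have h' : ((((S.filter (fun p => p ∣ n)).filter
      (fun p => ∃ q ∈ Q, q ∣ n ∧ q ∣ p - 1)).card : ℝ)) ≤ ∑ q ∈ Q,
        ((((S.filter (fun p => q ∣ p - 1)).filter (fun p => q * p ∣ n)).card : ℕ) : ℝ) := by
      exact_mod_cast h
    refine h'.trans_eq (Finset.sum_congr rfl fun q _ => ?_)
    rw [← Finset.sum_filter, Finset.sum_const, nsmul_eq_mul, mul_one]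
  have h1 : ((((Ioc 0 x).filter fun n => m ≤
      (((S.filter (fun p => p ∣ n)).filter (fun p => ∃ q ∈ Q, q ∣ n ∧ q ∣ p - 1)).card : ℝ)).card
        : ℝ)) * m ≤ ∑ n ∈ Ioc 0 x,
      ∑ q ∈ Q, ∑ p ∈ S.filter (fun p => q ∣ p - 1), if q * p ∣ n then (1 : ℝ) else 0 := by
    rw [← nsmul_eq_mul]
    refine (Finset.card_nsmul_le_sum _ (fun n => ∑ q ∈ Q, ∑ p ∈ S.filter (fun p => q ∣ p - 1),
      if q * p ∣ n then (1 : ℝ) else 0) _ ?_).trans ?_
    · intro n hn
      rw [mem_filter] at hn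
      exact hn.2.trans (h0 n)
    · exact Finset.sum_le_sum_of_subset_of_nonneg (Finset.filter_subset _ _)
        fun n _ _ => Finset.sum_nonneg fun q _ => Finset.sum_nonneg fun p _ => by
          split_ifs <;> norm_num
  refine h1.trans ?_
  calc ∑ n ∈ Ioc 0 x, ∑ q ∈ Q, ∑ p ∈ S.filter (fun p => q ∣ p - 1),
        (if q * p ∣ n then (1 : ℝ) else 0)
      = ∑ q ∈ Q, ∑ p ∈ S.filter (fun p => q ∣ p - 1), ∑ n ∈ Ioc 0 x,
        (if q * p ∣ n then (1 : ℝ) else 0) := by
        rw [Finset.sum_comm]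
        refine Finset.sum_congr rfl fun q _ => ?_
        rw [Finset.sum_comm]
    _ ≤ ∑ q ∈ Q, ∑ p ∈ S.filter (fun p => q ∣ p - 1), (x : ℝ) * ((1 / q) * (1 / p)) := by
        refine Finset.sum_le_sum fun q _ => Finset.sum_le_sum fun p _ => ?_
        rw [← Finset.sum_filter, Finset.sum_const, nsmul_eq_mul, mul_one]
        refine (card_mult _ _).trans_eq ?_
        push_cast
        rw [div_eq_mul_inv, mul_inv, one_div, one_div]
    _ = x * ∑ q ∈ Q, (1 : ℝ) / q * ∑ p ∈ S.filter (fun p => q ∣ p - 1), (1 : ℝ) / p := by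
        rw [Finset.mul_sum]
        refine Finset.sum_congr rfl fun q _ => ?_
        rw [Finset.mul_sum, Finset.mul_sum]
    _ ≤ x * A := mul_le_mul_of_nonneg_left hA (Nat.cast_nonneg x)

end Pool.Agent.Lib.MP_688fd0_co.OSF.H38
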