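import Pool.Agent.Lib.MP_688fd0_co.OSF.H38.Ord1
import Pool.Agent.Lib.MP_ba0fa5_ag.AA.IfaceA

/-!
MP_688fd0_co, odd squarefree orders: primes in progressions.
-/

set_option autoImplicit false

namespace Pool.Agent.Lib.MP_688fd0_co.OSF.H38

open Finset
open Pool.Agent.Lib.MP_ba0fa5_ag.AA (primesIn MertapStmt RecgStmt BtsumStmt)

lemma mem_primesIn {W y p : ℕ} : p ∈ primesIn W y ↔ (W < p ∧ p ≤ y) ∧ p.Prime := by
  unfold primesIn
  rw [mem_filter, mem_Ioc]

/-- lower bound for the primes `-1` modulo `M` in a long range -/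
lemma low (hM : MertapStmt) (hR : RecgStmt) (M : ℕ) (hM1 : 1 ≤ M) (J : ℕ) (hJ : 1 ≤ J) :
    ∃ W₀ : ℕ, ∀ W : ℕ, W₀ ≤ W → (J : ℝ) / (2 * M.totient) ≤
      ∑ p ∈ (primesIn W (W ^ 2 ^ J)).filter (fun p => p ≡ M - 1 [MOD M]), (1 : ℝ) / p := by
  classical
  obtain ⟨C, hC⟩ := hM M hM1
  set α : ℕ → ℝ := fun l => if l ≡ M - 1 [MOD M] then 1 else 0 with hα
  have hφ : (0 : ℝ) < M.totient := by exact_mod_cast Nat.totient_pos.mpr hM1
  have hcop : (M - 1).Coprime M := by
    rcases Nat.lt_or_ge M 2 with h | h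
    · have : M = 1 := by omega
      subst this; simp
    · have h1 : M - 1 + 1 = M := by omega
      have := (Nat.coprime_self_add_right (m := M - 1) (n := 1)).mpr (Nat.coprime_one_right _)
      rw [h1] at this
      exact this
  have hC0 : 0 ≤ C := (abs_nonneg _).trans (hC (M - 1) 1 hcop le_rfl)
  have h := hR α (1 / M.totient) C (fun l => by
      rw [hα]; dsimp only; split_ifs <;> norm_num) (by positivity) hC0 (by
    intro y hy
    have h1 := hC (M - 1) y hcop hy
    have e : ∑ l ∈ primesIn 0 y, α l * Real.log l / l =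
        ∑ l ∈ (Icc 1 y).filter (fun l => l.Prime ∧ l ≡ M - 1 [MOD M]), Real.log l / l := by
      rw [Finset.sum_filter]
      unfold primesIn
      rw [Finset.sum_filter]
      refine Finset.sum_congr (by ext k; simp [Nat.lt_iff_add_one_le]) fun l _ => ?_
      rw [hα]
      by_cases h2 : l.Prime <;> by_cases h3 : l ≡ M - 1 [MOD M] <;> simp [h2, h3]
    rw [e]
    have e2 : 1 / (M.totient : ℝ) * Real.log y = Real.log y / M.totient := by ring
    rw [e2]
    exact h1)
  -- choose W₀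
  set K : ℝ := 4 * C + 4 * (1 / M.totient) with hK
  have hK0 : 0 < K := by positivity
  obtain ⟨W₀, hW₀⟩ := exists_nat_ge (Real.exp (K * (10 * M.totient)))
  refine ⟨max 3 W₀, fun W hW => ?_⟩
  have hW3 : 3 ≤ W := (le_max_left _ _).trans hW
  have hWW : W₀ ≤ W := (le_max_right _ _).trans hW
  have hWr : (1 : ℝ) < W := by exact_mod_cast (by omega : 1 < W)
  have hlogW : 0 < Real.log W := Real.log_pos hWr
  have hlog : K * (10 * M.totient) ≤ Real.log W := by
    rw [Real.le_log_iff_exp_le (by linarith)]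
    exact hW₀.trans (by exact_mod_cast hWW)
  have hle : W ≤ W ^ 2 ^ J := Nat.le_self_pow (by positivity) W
  have h1 := h W (W ^ 2 ^ J) (by omega) hle
  have e1 : Real.log ((W ^ 2 ^ J : ℕ) : ℝ) / Real.log W = 2 ^ J := by
    push_cast
    rw [Real.log_pow]
    push_cast
    field_simp
  rw [e1, Real.log_pow] at h1
  have e2 : ∑ l ∈ primesIn W (W ^ 2 ^ J), α l / l =
      ∑ p ∈ (primesIn W (W ^ 2 ^ J)).filter (fun p => p ≡ M - 1 [MOD M]), (1 : ℝ) / p := by
    rw [Finset.sum_filter]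
    refine Finset.sum_congr rfl fun l _ => ?_
    rw [hα]
    by_cases h3 : l ≡ M - 1 [MOD M] <;> simp [h3]
  rw [e2] at h1
  have h2 := (abs_le.mp h1).1
  have h3 : K / Real.log W ≤ 1 / (10 * M.totient) := by
    rw [div_le_div_iff₀ hlogW (by positivity)]
    linarith
  have h4 : (0.6931471803 : ℝ) < Real.log 2 := Real.log_two_gt_d9
  have hJ1 : (1 : ℝ) ≤ J := by exact_mod_cast hJ
  have h5 : (J : ℝ) / (2 * M.totient) ≤ 1 / M.totient * (J * Real.log 2) - 1 / (10 * M.totient) := by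
    have e3 : 1 / M.totient * (J * Real.log 2) - 1 / (10 * M.totient) - (J : ℝ) / (2 * M.totient) =
        (J * Real.log 2 - 1 / 10 - J / 2) * (1 / M.totient) := by
      field_simp
    have h6 : 0 ≤ J * Real.log 2 - 1 / 10 - J / 2 := by nlinarith
    have h7 : 0 ≤ (J * Real.log 2 - 1 / 10 - J / 2) * (1 / (M.totient : ℝ)) :=
      mul_nonneg h6 (by positivity)
    linarith
  linarith

/-- upper bound for one residue class -/
lemma upp (hB : BtsumStmt) : ∃ C : ℝ, 0 < C ∧ ∀ q a W J : ℕ, 1 ≤ q → 3 ≤ W → q ^ 2 ≤ W →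
    a.Coprime q → ∑ p ∈ (primesIn W (W ^ 2 ^ J)).filter (fun p => p ≡ a [MOD q]), (1 : ℝ) / p ≤
      C * J / q.totient := by
  classical
  obtain ⟨C, hC0, hC⟩ := hB
  refine ⟨2 * C, by positivity, fun q a W J hq hW hqW ha => ?_⟩
  have hφ : (0 : ℝ) < q.totient := by exact_mod_cast Nat.totient_pos.mpr hq
  -- one block
  have blk : ∀ y : ℕ, 3 ≤ y → q ^ 2 ≤ y →
      ∑ p ∈ (primesIn y (y ^ 2)).filter (fun p => p ≡ a [MOD q]), (1 : ℝ) / p ≤
        2 * C / q.totient := by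
    intro y hy hqy
    have hy1 : (1 : ℝ) < y := by exact_mod_cast (by omega : 1 < y)
    have hly : 0 < Real.log y := Real.log_pos hy1
    have h1 := hC q a (y ^ 2) hq (by nlinarith) ha
    have h2 : Real.log y * ∑ p ∈ (primesIn y (y ^ 2)).filter (fun p => p ≡ a [MOD q]), (1 : ℝ) / p ≤
        ∑ n ∈ (Ioc (q ^ 2) (y ^ 2)).filter (fun n => n ≡ a [MOD q]),
          ArithmeticFunction.vonMangoldt n / n := by
      rw [Finset.mul_sum]
      refine (Finset.sum_le_sum (g := fun n => ArithmeticFunction.vonMangoldt n / n)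
        fun p hp => ?_).trans (Finset.sum_le_sum_of_subset_of_nonneg (fun p hp => ?_)
          fun n _ _ => div_nonneg ArithmeticFunction.vonMangoldt_nonneg (Nat.cast_nonneg _))
      · rw [mem_filter, mem_primesIn] at hp
        obtain ⟨⟨⟨h3, _⟩, h4⟩, _⟩ := hp
        rw [ArithmeticFunction.vonMangoldt_apply_prime h4, mul_one_div]
        have h5 : (y : ℝ) ≤ p := by exact_mod_cast h3.le
        have := Real.log_le_log (by linarith) h5
        exact div_le_div_of_nonneg_right this (Nat.cast_nonneg _)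
      · rw [mem_filter, mem_primesIn] at hp
        rw [mem_filter, mem_Ioc]
        exact ⟨⟨hqy.trans_lt hp.1.1.1, hp.1.1.2⟩, hp.2⟩
    have h3 : Real.log ((y ^ 2 : ℕ) : ℝ) = 2 * Real.log y := by
      push_cast
      rw [Real.log_pow]
      norm_num
    rw [h3] at h1
    have h4 := h2.trans h1
    have h5 : C * (2 * Real.log y) / q.totient = Real.log y * (2 * C / q.totient) := by ring
    rw [h5] at h4
    exact le_of_mul_le_mul_left h4 hly
  induction J with
  | zero =>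
    have : (primesIn W (W ^ 2 ^ 0)).filter (fun p => p ≡ a [MOD q]) = ∅ := by
      ext p
      rw [mem_filter, mem_primesIn]
      simp only [pow_zero, pow_one]
      constructor
      · rintro ⟨⟨⟨h1, h2⟩, _⟩, _⟩
        omega
      · intro h; exact absurd h (Finset.notMem_empty _)
    rw [this]
    simp
  | succ J ih =>
    have hW1 : 1 ≤ W := by omega
    have hWJ : W ≤ W ^ 2 ^ J := Nat.le_self_pow (by positivity) W
    have hsub : (primesIn W (W ^ 2 ^ (J + 1))).filter (fun p => p ≡ a [MOD q]) ⊆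
        (primesIn W (W ^ 2 ^ J)).filter (fun p => p ≡ a [MOD q]) ∪
        (primesIn (W ^ 2 ^ J) ((W ^ 2 ^ J) ^ 2)).filter (fun p => p ≡ a [MOD q]) := by
      intro p hp
      rw [mem_filter, mem_primesIn] at hp
      rw [mem_union, mem_filter, mem_filter, mem_primesIn, mem_primesIn, ← pow_mul, ← pow_succ]
      by_cases h : p ≤ W ^ 2 ^ J
      · left; exact ⟨⟨⟨hp.1.1.1, h⟩, hp.1.2⟩, hp.2⟩
      · right; exact ⟨⟨⟨by omega, hp.1.1.2⟩, hp.1.2⟩, hp.2⟩
    have h1 := blk (W ^ 2 ^ J) (hW.trans hWJ) (hqW.trans hWJ)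
    calc ∑ p ∈ (primesIn W (W ^ 2 ^ (J + 1))).filter (fun p => p ≡ a [MOD q]), (1 : ℝ) / p
        ≤ ∑ p ∈ (primesIn W (W ^ 2 ^ J)).filter (fun p => p ≡ a [MOD q]) ∪
        (primesIn (W ^ 2 ^ J) ((W ^ 2 ^ J) ^ 2)).filter (fun p => p ≡ a [MOD q]), (1 : ℝ) / p :=
          Finset.sum_le_sum_of_subset_of_nonneg hsub fun p _ _ => by positivity
      _ ≤ ∑ p ∈ (primesIn W (W ^ 2 ^ J)).filter (fun p => p ≡ a [MOD q]), (1 : ℝ) / p +
        ∑ p ∈ (primesIn (W ^ 2 ^ J) ((W ^ 2 ^ J) ^ 2)).filter (fun p => p ≡ a [MOD q]),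
          (1 : ℝ) / p := by
          rw [← Finset.sum_union_inter]
          have : 0 ≤ ∑ p ∈ (primesIn W (W ^ 2 ^ J)).filter (fun p => p ≡ a [MOD q]) ∩
            (primesIn (W ^ 2 ^ J) ((W ^ 2 ^ J) ^ 2)).filter (fun p => p ≡ a [MOD q]),
            (1 : ℝ) / p := Finset.sum_nonneg fun p _ => by positivity
          linarith
      _ ≤ 2 * C * J / q.totient + 2 * C / q.totient := add_le_add ih h1
      _ = 2 * C * ((J + 1 : ℕ) : ℝ) / q.totient := by push_cast; ring

/-- the pairs `P = -1 mod M`, `q ∣ P - 1`, `z < q ≤ Y` -/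
lemma upq (hB : BtsumStmt) : ∃ C : ℝ, 0 < C ∧ ∀ M z Y W J : ℕ, 1 ≤ M → 1 ≤ z → 3 ≤ W →
    (∀ l : ℕ, l.Prime → l ∣ M → l ≤ z) → (Y * M) ^ 2 ≤ W →
    ∑ q ∈ primesIn z Y, (1 : ℝ) / q *
      ∑ p ∈ ((primesIn W (W ^ 2 ^ J)).filter (fun p => p ≡ M - 1 [MOD M])).filter
        (fun p => q ∣ p - 1), (1 : ℝ) / p ≤ C * J / (M.totient * z) := by
  classical
  obtain ⟨C, hC0, hC⟩ := upp hB
  refine ⟨2 * C, by positivity, fun M z Y W J hM hz hW hMz hY => ?_⟩
  have hφM : (0 : ℝ) < M.totient := by exact_mod_cast Nat.totient_pos.mpr hM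
  have hz0 : (0 : ℝ) < z := by exact_mod_cast hz
  have key : ∀ q ∈ primesIn z Y, (1 : ℝ) / q *
      ∑ p ∈ ((primesIn W (W ^ 2 ^ J)).filter (fun p => p ≡ M - 1 [MOD M])).filter
        (fun p => q ∣ p - 1), (1 : ℝ) / p ≤ C * J / M.totient * (2 * ((q : ℝ) ^ 2)⁻¹) := by
    intro q hq
    rw [mem_primesIn] at hq
    obtain ⟨⟨hzq, hqY⟩, hqp⟩ := hq
    have hq0 : (0 : ℝ) < q := by exact_mod_cast hqp.pos
    have hqM : q.Coprime M := by
      rw [Nat.Prime.coprime_iff_not_dvd hqp]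
      intro h
      have := hMz q hqp h
      omega
    set S := ((primesIn W (W ^ 2 ^ J)).filter (fun p => p ≡ M - 1 [MOD M])).filter
        (fun p => q ∣ p - 1) with hS
    have hbd : ∑ p ∈ S, (1 : ℝ) / p ≤ C * J / ((q * M : ℕ).totient) := by
      rcases Finset.eq_empty_or_nonempty S with h | ⟨p₀, hp₀⟩
      · rw [h, Finset.sum_empty]
        positivity
      · have hp₀' := hp₀
        rw [hS, mem_filter, mem_filter, mem_primesIn] at hp₀'
        obtain ⟨⟨⟨⟨h1, _⟩, h2⟩, h3⟩, h4⟩ := hp₀'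
        have hqMW : (q * M) ^ 2 ≤ W :=
          (Nat.pow_le_pow_left (Nat.mul_le_mul_right M hqY) 2).trans hY
        have hqM1 : 1 ≤ q * M := Nat.mul_pos hqp.pos hM
        have hcop : p₀.Coprime (q * M) := by
          rw [Nat.Prime.coprime_iff_not_dvd h2]
          intro h
          have h5 := Nat.le_of_dvd (by omega) h
          nlinarith
        refine le_trans ?_ (hC (q * M) p₀ W J hqM1 hW hqMW hcop)
        refine Finset.sum_le_sum_of_subset_of_nonneg (fun p hp => ?_) fun p _ _ => by positivity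
        rw [hS, mem_filter, mem_filter] at hp
        rw [mem_filter]
        refine ⟨hp.1.1, ?_⟩
        have hp1 : 1 ≤ p := by
          have := (mem_primesIn.mp hp.1.1).2.pos
          omega
        have h21 : 1 ≤ p₀ := h2.pos
        rw [← Nat.modEq_and_modEq_iff_modEq_mul hqM]
        refine ⟨?_, hp.1.2.trans h3.symm⟩
        have ha : p ≡ 1 [MOD q] := ((Nat.modEq_iff_dvd' hp1).mpr hp.2).symm
        have hb : p₀ ≡ 1 [MOD q] := ((Nat.modEq_iff_dvd' h21).mpr h4).symm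
        exact ha.trans hb.symm
    have hq2 : 2 ≤ q := hqp.two_le
    have hq2' : (2 : ℝ) ≤ q := by exact_mod_cast hq2
    have htot : ((q * M : ℕ).totient : ℝ) = (q - 1) * M.totient := by
      rw [Nat.totient_mul hqM, Nat.totient_prime hqp]
      push_cast [Nat.cast_sub hqp.pos]
      ring
    rw [htot] at hbd
    calc (1 : ℝ) / q * ∑ p ∈ S, (1 : ℝ) / p ≤ 1 / q * (C * J / ((q - 1) * M.totient)) :=
          mul_le_mul_of_nonneg_left hbd (by positivity)
      _ = C * J / M.totient * (1 / (q * (q - 1))) := by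
          have : (q : ℝ) - 1 ≠ 0 := by intro h; linarith
          field_simp
      _ ≤ C * J / M.totient * (2 * ((q : ℝ) ^ 2)⁻¹) := by
          refine mul_le_mul_of_nonneg_left ?_ (by positivity)
          rw [← div_eq_mul_inv, div_le_div_iff₀ (by nlinarith) (by positivity)]
          nlinarith
  calc ∑ q ∈ primesIn z Y, (1 : ℝ) / q *
      ∑ p ∈ ((primesIn W (W ^ 2 ^ J)).filter (fun p => p ≡ M - 1 [MOD M])).filter
        (fun p => q ∣ p - 1), (1 : ℝ) / p
      ≤ ∑ q ∈ primesIn z Y, C * J / M.totient * (2 * ((q : ℝ) ^ 2)⁻¹) := Finset.sum_le_sum key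
    _ ≤ ∑ q ∈ Ioc z (max z Y), C * J / M.totient * (2 * ((q : ℝ) ^ 2)⁻¹) := by
        refine Finset.sum_le_sum_of_subset_of_nonneg (fun q hq => ?_) fun q _ _ => by positivity
        rw [mem_primesIn] at hq
        rw [mem_Ioc]
        exact ⟨hq.1.1, hq.1.2.trans (le_max_right _ _)⟩
    _ = C * J / M.totient * (2 * ∑ q ∈ Ioc z (max z Y), ((q : ℝ) ^ 2)⁻¹) := by
        rw [← Finset.mul_sum, ← Finset.mul_sum]
    _ ≤ C * J / M.totient * (2 * (z : ℝ)⁻¹) := by
        refine mul_le_mul_of_nonneg_left ?_ (by positivity)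
        refine mul_le_mul_of_nonneg_left ?_ (by norm_num)
        refine (sum_Ioc_inv_sq_le_sub (α := ℝ) (by omega) (le_max_left z Y)).trans ?_
        have : (0 : ℝ) ≤ ((max z Y : ℕ) : ℝ)⁻¹ := by positivity
        linarith
    _ = 2 * C * J / (M.totient * z) := by
        field_simp

/-- Mertens for `q = 1` -/
lemma mert (hM : MertapStmt) : ∃ C : ℝ, 0 ≤ C ∧ ∀ Y : ℕ, 1 ≤ Y →
    ∑ q ∈ primesIn 0 Y, Real.log q / q ≤ Real.log Y + C := by
  obtain ⟨C, hC⟩ := hM 1 le_rfl
  have h0 := hC 0 1 (by norm_num) le_rfl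
  refine ⟨C, (abs_nonneg _).trans h0, fun Y hY => ?_⟩
  have h1 := (abs_le.mp (hC 0 Y (by norm_num) hY)).2
  have e : (Icc 1 Y).filter (fun l => l.Prime ∧ l ≡ 0 [MOD 1]) = primesIn 0 Y := by
    ext l
    rw [mem_filter, mem_Icc, mem_primesIn]
    constructor
    · rintro ⟨h2, h3, _⟩
      exact ⟨⟨by omega, h2.2⟩, h3⟩
    · rintro ⟨h2, h3⟩
      exact ⟨⟨by omega, h2.2⟩, h3, Nat.modEq_one⟩
  rw [e] at h1
  simp only [Nat.totient_one, Nat.cast_one, div_one] at h1
  linarith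

end Pool.Agent.Lib.MP_688fd0_co.OSF.H38
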